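import Pool.Agent.Helper57.KE.St

/-!
# Project KE (MP_45ac3c_an), module SML: the two-sided kernel, small case
-/

set_option autoImplicit false

open scoped BigOperators
open Finset

namespace Pool.Agent.Helper25.KE

open Pool.Agent.Helper57.KE Pool.Agent.Helper57.KR Pool.Agent.Helper65.RG

private lemma k1_le1 {δ : ℝ} (hδ : 0 < δ) (i j : ℕ) : k1 δ i j ≤ 1 := by
  unfold k1
  split_ifs
  · apply pow_le_one₀ (by positivity)
    apply inv_le_one_of_one_le₀
    linarith
  · exact zero_le_one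

private lemma ratio_bd {a b c d Φ : ℝ} (hb : 0 < b) (hc : 0 < c) (ha : 0 < a)
    (hd : 0 < d) (haΦ : a ≤ Φ) (hdΦ : d ≤ Φ) :
    (a / b) / (c / d) ≤ (1 + (Φ / c - 1)) * (1 + (Φ / b - 1)) := by
  have e1 : (a / b) / (c / d) = (a / b) * (d / c) := by field_simp
  have e2 : (1 + (Φ / c - 1)) * (1 + (Φ / b - 1)) = (Φ / b) * (Φ / c) := by ring
  rw [e1, e2]
  have h1 : a / b ≤ Φ / b := div_le_div_of_nonneg_right haΦ hb.le
  have h2 : d / c ≤ Φ / c := div_le_div_of_nonneg_right hdΦ hc.le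
  have hΦ : 0 < Φ := lt_of_lt_of_le ha haΦ
  exact mul_le_mul h1 h2 (by positivity) (by positivity)

/-- Module SML. -/
theorem hSML : StSML := by
  intro φ Φ S δ M N hφ hΦ hM hMN hδ _ hS
  obtain ⟨α, hα⟩ : ∃ α : ℕ → ℝ, α = fun j => Φ / φ j - 1 := ⟨_, rfl⟩
  have hα' : ∀ j, α j = Φ / φ j - 1 := fun j => by rw [hα]
  have hα0 : ∀ j, 0 ≤ α j := fun j => by
    have h : 1 ≤ Φ / φ j := by
      rw [le_div_iff₀ (hφ j), one_mul]
      exact hΦ j
    rw [hα']
    linarith
  have hαM : ∀ j, M ≤ j → α j = 0 := fun j hj => by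
    rw [hα', hM j hj, div_self, sub_self]
    rw [← hM j hj]
    exact (hφ j).ne'
  have hsum : ∑ j : Fin (N + 1), α j ^ 2 ≤ S := by
    rw [Fin.sum_univ_eq_sum_range (fun j => α j ^ 2) (N + 1)]
    have h : ∑ j ∈ range M, α j ^ 2 = ∑ j ∈ range (N + 1), α j ^ 2 := by
      apply Finset.sum_subset
      · intro j hj
        rw [mem_range] at hj ⊢
        omega
      · intro j _ hj
        rw [mem_range, not_lt] at hj
        rw [hαM j hj]
        norm_num
    rw [← h, hα]
    exact hS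
  have hsum' : ∑ i : Fin (N + 1), α (N - i) ^ 2 ≤ S := by
    have e : ∑ i : Fin (N + 1), α (N - i) ^ 2 = ∑ j : Fin (N + 1), α j ^ 2 := by
      rw [← Equiv.sum_comp Fin.revPerm (fun j : Fin (N + 1) => α j ^ 2)]
      refine sum_congr rfl fun i _ => ?_
      have h : ((Fin.revPerm i : Fin (N + 1)) : ℕ) = N - i := by
        rw [Fin.revPerm_apply, Fin.val_rev]
        omega
      rw [h]
    rw [e]
    exact hsum
  have hS0 : 0 ≤ S := le_trans (sum_nonneg fun _ _ => sq_nonneg _) hsum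
  have hone : ∑ _i : Fin (N + 1), (1 : ℝ) ^ 2 = (N : ℝ) + 1 := by simp
  have b1 := kb1 hδ N
  have b2 : KB (fun _ j : Fin (N + 1) => α j) (√(((N : ℝ) + 1) * S)) := by
    have h := KB.rankOne (K := fun _ j : Fin (N + 1) => α j) (u := fun _ : Fin (N + 1) => (1 : ℝ))
      (v := fun j : Fin (N + 1) => α j) (fun i j => by rw [one_mul])
    refine h.mono (fun _ _ => le_rfl) ?_
    rw [hone, Real.sqrt_mul (by positivity)]
    exact mul_le_mul_of_nonneg_left (Real.sqrt_le_sqrt hsum) (Real.sqrt_nonneg _)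
  have b3 : KB (fun i _ : Fin (N + 1) => α (N - i)) (√(((N : ℝ) + 1) * S)) := by
    have h := KB.rankOne (K := fun i _ : Fin (N + 1) => α (N - i))
      (u := fun i : Fin (N + 1) => α (N - i))
      (v := fun _ : Fin (N + 1) => (1 : ℝ)) (fun i j => by rw [mul_one])
    refine h.mono (fun _ _ => le_rfl) ?_
    rw [hone, Real.sqrt_mul (by positivity), mul_comm]
    exact mul_le_mul_of_nonneg_left (Real.sqrt_le_sqrt hsum') (Real.sqrt_nonneg _)
  have b4 : KB (fun i j : Fin (N + 1) => α (N - i) * α j) S := by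
    have h := KB.rankOne (K := fun i j : Fin (N + 1) => α (N - i) * α j)
      (u := fun i : Fin (N + 1) => α (N - i))
      (v := fun j : Fin (N + 1) => α j) (fun i j => le_rfl)
    refine h.mono (fun _ _ => le_rfl) ?_
    calc √(∑ i : Fin (N + 1), α (N - i) ^ 2) * √(∑ j : Fin (N + 1), α j ^ 2)
        ≤ √S * √S := mul_le_mul (Real.sqrt_le_sqrt hsum') (Real.sqrt_le_sqrt hsum)
          (Real.sqrt_nonneg _) (Real.sqrt_nonneg _)
      _ = S := Real.mul_self_sqrt hS0
  refine (((b1.add b2).add b3).add b4).mono (fun i j => ?_) (by linarith)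
  have hk0 := k1_nonneg hδ (i : ℕ) (j : ℕ)
  have hk1 := k1_le1 hδ (i : ℕ) (j : ℕ)
  have h1 := ratio_bd (hφ (N - i)) (hφ j) (hφ i) (hφ (N - j)) (hΦ i) (hΦ (N - j))
  rw [← hα', ← hα'] at h1
  have h2 := mul_le_mul_of_nonneg_left h1 hk0
  refine h2.trans ?_
  have h3 : 0 ≤ α j + α (N - i) + α (N - i) * α j := by
    have := hα0 j
    have := hα0 (N - i)
    positivity
  have h4 := mul_le_mul_of_nonneg_right hk1 h3
  calc k1 δ i j * ((1 + α j) * (1 + α (N - i)))
      = k1 δ i j + k1 δ i j * (α j + α (N - i) + α (N - i) * α j) := by ring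
    _ ≤ k1 δ i j + α j + α (N - i) + α (N - i) * α j := by linarith

end Pool.Agent.Helper25.KE
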